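import Mathlib
import Pool.Agent.Helper94.DV.Defs
import Pool.Agent.Helper94.DV.Low
import Pool.Agent.Helper94.DV.Up

/-!
# Hash values of all the weights do not help a weighted vote to find an exact triangle

The instances are complete tripartite graphs on `n` vertices (the classes are the residues modulo 3)
with integer weights of absolute value at most `n ^ 300`. A random vote has `N` voters, each of
which is an arbitrary real function of `t` exact weights; it accepts if the sum of the votes is
positive, and it has to be right with probability at least `19/20` on every instance. Moreover,
every voter knows a digest with at most `K` values of every weight, an arbitrary function of this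
weight which is drawn at random with the vote, and there is any number of free voters: arbitrary
functions of two of the three weight matrices and of all the digests. Then
`n ^ 3 ≤ 2 ^ 32 * (K + N * t ^ (3/2))`. So `N * t ^ (3/2)` is at least `n ^ 3 / 2 ^ 33` even if
`3 log n - 33` bits of every weight are known to all the voters. This is sharp: for `K = n ^ 3` one
free voter is enough, and without digests (`K = 1`) the `n₀ n₁ n₂` functions of the three weights of
one triangle are enough (the classes have `n₀`, `n₁`, `n₂` vertices).

Idea of the proof. In each of four parts of the classes a random triangle `T q` is planted, and the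
weights of its three edges have two possible values each, with the same digest; this gives eight
instances, the corners of a cube. At the even corner number `q` the triangle `T q` has the sum zero.
The alternating sum of a vote over the cube is zero unless planted edges of all three sides are
among its exact weights; by the inequality of Loomis and Whitney this happens with probability at
most `64 * t ^ (3/2) / m ^ 3` (`m = n / 12`). If one of the three weights of `T q` is drawn again in
its class of weights with the same digest, the law of the weights of the part `q` has a density with
variance at most `2 K / m ^ 3 + 2 / m ^ 2`. So the eight instances look like independent uniform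
weights (a no-instance) at the odd corners and like uniform weights with one planted triangle of sum
zero at the even corners, and the vote is right at all eight corners with positive probability.
-/

set_option autoImplicit false

namespace Pool.Agent.Helper94.Kept.ExactTriangleVotes

open Pool.Agent.Helper94.DV

/-- Random weighted votes for Exact Triangle with digests of all the weights: the lower bound, and
two upper bounds which show that it is sharp. -/
theorem result :
    -- the lower bound
    (∀ (n K t N : ℕ) (Ω ι : Type) [Fintype Ω] [Nonempty Ω] [Fintype ι]
      (δ : Ω → Sym2 (Fin n) → ℤ → Fin K) (H : Ω → ι ⊕ Fin N → Inst n → ℝ),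
      (∀ ω i, Free (δ ω) (H ω (.inl i))) → (∀ ω i, Local (δ ω) t (H ω (.inr i))) →
      Solves H → (n : ℝ) ^ 3 ≤ 2 ^ 32 * (K + N * (t : ℝ) ^ (3 / 2 : ℝ))) ∧
    -- digests with `n ^ 3` values: one free voter
    (∀ n : ℕ, 1 ≤ n → ∃ (Ω : Type) (_ : Fintype Ω) (_ : Nonempty Ω)
      (δ : Ω → ℤ → Fin (n ^ 3)) (H : Ω → Inst n → ℝ),
      (∀ ω, Free (fun _ => δ ω) (H ω)) ∧ Solves (fun ω (_ : Fin 1) => H ω)) ∧
    -- without digests: functions of three weights
    (∀ n : ℕ, ∃ H : Fin ((n + 2) / 3 * ((n + 1) / 3) * (n / 3)) → Inst n → ℝ,
      (∀ i, Local (fun _ _ => (0 : Fin 1)) 3 (H i)) ∧ ∀ w, (0 < ∑ i, H i w ↔ Yes w)) :=
  ⟨fun n K t N Ω ι _ _ _ δ H hF hL hS => fixed n K t N Ω ι δ H hF hL hS, free, three⟩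

end Pool.Agent.Helper94.Kept.ExactTriangleVotes
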