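import Mathlib
import Pool.Agent.Helper22.ETModel
import Pool.Agent.Helper8.UV.Defs
import Pool.Agent.Helper53.TC5.Model
import Pool.Agent.Helper94.DG.Model
import Pool.Agent.Helper94.DG.Clean

/-!
# How much do hash values of all the weights help a weighted vote to find an exact triangle?

The instances are complete tripartite: the classes are the residues modulo 3, with
`n₀ ≥ n₁ ≥ n₂` vertices, and the three sides `01`, `12` and `02` are the three weight matrices
between them. A circuit consists of finitely many voters, which are arbitrary real functions of the
instance; it accepts if the sum of the votes is positive. A random circuit has to be correct with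
probability at least `19/20` on every valid complete tripartite instance. It knows the flags; the
difficulty is in the weights.

Now all the voters know the weights inside the classes (which are irrelevant) and digests (hash
values) of all the other weights: for every cell `u v` between two classes a value `δ u v (w u v)` in a set of `K` elements, where the functions `δ u v` are arbitrary
and are drawn at random together with the circuit. (They may depend on the flags, too.) Moreover,
there is any number of free voters: arbitrary functions of two of the three sides and of the digests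
of the third one, for each choice of the third one. How many other voters are needed?

* Fixed wires. If there are `N` voters which are arbitrary functions of all the digests and of the
  exact weights in `t` cells (which do not depend on the weights), then
  `n ^ 3 ≤ 2 ^ 32 * (K + N * t ^ (3/2))`. So, as long as `K` is less than `n ^ 3 / 2 ^ 33`, that is,
  if `3 log n - 33` bits of every weight are known to all the voters, the digests do not help at
  all, up to a constant: `N * t ^ (3/2)` is at least `n ^ 3 / 2 ^ 33`.
* Adaptive wires. If the `N` voters are decision trees which depend on all the digests and probe `t`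
  exact weights adaptively, then `n ^ 3 ≤ 2 ^ 70 * K * (1 + N * t ^ (3/2))`. So the digests help
  adaptive voters by the factor `K` at most, up to a constant.
* Both are sharp. Without digests (`K = 1`) the `n₀ * n₁ * n₂` functions of the three weights of one
  triangle are enough. With `K = n ^ 3` one free voter is enough; the digest is one random
  function for all cells. For every `K` from `1` to `n ^ 3` at most `8 * n ^ 3 / K` decision trees
  with three probes are enough (the digests are linear hash values modulo a prime, the trees test
  the candidates for the solution).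

The fifth and the sixth statement are the general form of the lower bounds. Now the digest of the
cell `u v` has `K u v ≤ M` values, and all these numbers are random, too. The price of a voter with
fixed wires is `tri n a b c`, the smallest of the numbers `√(a b c)`, `a b`, `b c`, `a c`, `n a`,
`n b`, `n c`, if it has `a`, `b`, `c` cells in the three sides. The price of a decision tree with
`a`, `b`, `c` adaptive probes in the three sides on every path is `triA n M a b c`, the smaller one
of `M * √(a b c)` and `(n + M) * min a b c`. Then `n ^ 3` is at most `2 ^ 70` times the expected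
value of the sum of the average of the numbers `K u v` over the `n ^ 2` cells and the total price
of the voters; if all the voters have fixed wires, `2 ^ 70` can be replaced by `2 ^ 32`.

Idea of the proof. In each of four parts of the classes a random triangle `T q` is planted, and the
weights of its three edges have two possible values each, with the same digest; this gives eight
instances, the corners of a cube. At the even corner number `q` the triangle `T q` has the sum zero,
so that the four even corners are yes-instances. The alternating sum of a vote with fixed wires over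
the cube is zero, unless planted edges of all three sides are among its cells, because exchanging
the two values of the planted edges of one side changes neither the digests nor the exact weights
that the voter sees. The expected number of voters with planted edges of all three sides is at most
`64` times the total price divided by `m ^ 3` (`m = n / 12`). If one of the three weights of `T q`
is drawn again in its class of weights with the same digest, the law of the weights of the part `q`
has the density `F = m⁻³ ∑ i j k, f i j k (x i j) (y j k) (w i k)`, where `f` has mean `1` for all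
fixed `x`, `y`, mean at most `2` for fixed `w` and second moment at most `2 K`; so the variance of
`F` is at most `2 K / m ^ 3 + 2 / m ^ 2`. Hence the eight instances look like independent uniform
weights (a no-instance) at the odd corners and like uniform weights with one planted triangle of sum
zero at the even corners, and the circuit has to be right at all eight corners with positive
probability.

A decision tree whose alternating sum is not zero must meet planted edges of all three sides already
at an odd corner (otherwise every odd corner has the same path as an even one, and these pairs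
cancel). There the joint law of the planted triangles and of the weights has the density
`∏ f`, and it is bounded on most of the space, also after averaging over the triangles with one
common edge; this follows from the second moments and is paid once for the whole circuit. So the
probability is bounded by the weights of the triangles, pairs of edges and edges read by the tree.
-/

set_option autoImplicit false

namespace Pool.Agent.Helper94.Kept.HashedWeights

open Pool.Agent.Helper22.ETModel Pool.Agent.Helper8.VT Pool.Agent.Helper8.UV
open Pool.Agent.Helper53.TC5 Pool.Agent.Helper94.DG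

/-- Hash values of all the weights and weighted votes for Exact Triangle: the lower bounds for fixed
and for adaptive wires, the matching upper bounds, and the general form of the lower bounds. -/
theorem result :
    -- fixed wires
    (∀ (n K t N : ℕ) (Ω ι : Type) [Fintype Ω] [Nonempty Ω] [Fintype ι]
      (δ : Ω → Flags n → ∀ u v : Fin n, ℤ → Fin K) (H : Ω → ι ⊕ Fin N → Inst n → ℝ),
      (∀ ω r, TwoSides (K := fun _ _ => K) (δ ω) (H ω (.inl r))) →
      (∀ ω s, Cells (K := fun _ _ => K) (δ ω) t (H ω (.inr s))) →
      (∀ I : Inst n, I.Valid → Tripartite I → Decides H I) →
      (n : ℝ) ^ 3 ≤ 2 ^ 32 * (K + N * (t : ℝ) ^ (3 / 2 : ℝ))) ∧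
    -- adaptive wires
    (∀ (n K t N : ℕ) (Ω ι : Type) [Fintype Ω] [Nonempty Ω] [Fintype ι]
      (δ : Ω → Flags n → ∀ u v : Fin n, ℤ → Fin K) (H : Ω → ι ⊕ Fin N → Inst n → ℝ),
      (∀ ω r, TwoSides (K := fun _ _ => K) (δ ω) (H ω (.inl r))) →
      (∀ ω s, Probes (K := fun _ _ => K) (δ ω) t (H ω (.inr s))) →
      (∀ I : Inst n, I.Valid → Tripartite I → Decides H I) →
      (n : ℝ) ^ 3 ≤ 2 ^ 70 * (K * (1 + N * (t : ℝ) ^ (3 / 2 : ℝ)))) ∧
    -- without digests: functions of three weights
    (∀ n : ℕ, ∃ H : Fin ((n + 2) / 3 * ((n + 1) / 3) * (n / 3)) → Inst n → ℝ,
      (∀ r, ∃ u v z : Fin n, (u : ℕ) % 3 = 0 ∧ (v : ℕ) % 3 = 1 ∧ (z : ℕ) % 3 = 2 ∧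
        ∀ (f : Flags n) (w w' : Wts n), w u v = w' u v → w v z = w' v z → w u z = w' u z →
          H r ⟨f, w⟩ = H r ⟨f, w'⟩) ∧
      ∀ I : Inst n, I.Valid → Tripartite I → (0 < ∑ r, H r I ↔ I.Yes)) ∧
    -- digests with `n ^ 3` values: one free voter
    (∀ n : ℕ, 1 ≤ n → ∃ (Ω : Type) (_ : Fintype Ω) (_ : Nonempty Ω)
      (δ : Ω → ℤ → Fin (n ^ 3)) (H : Ω → Inst n → ℝ),
      (∀ ω, TwoSides (K := fun _ _ => n ^ 3) (fun _ _ _ => δ ω) (H ω)) ∧
      ∀ I : Inst n, I.Valid → Tripartite I → Decides (fun ω (_ : Fin 1) => H ω) I) ∧
    -- digests with `K` values: decision trees with three probes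
    (∀ n K : ℕ, 1 ≤ K → K ≤ n ^ 3 → ∃ (N : ℕ) (Ω : Type) (_ : Fintype Ω) (_ : Nonempty Ω)
      (δ : Ω → ℤ → Fin K) (H : Ω → Fin N → Inst n → ℝ), N * K ≤ 8 * n ^ 3 ∧
      (∀ ω r, Probes (K := fun _ _ => K) (fun _ _ _ => δ ω) 3 (H ω r)) ∧
      ∀ I : Inst n, I.Valid → Tripartite I → Decides H I) ∧
    -- fixed wires, general form
    (∀ (n : ℕ) (Ω ι : Type) [Fintype Ω] [Nonempty Ω] [Fintype ι] (K : Ω → Fin n → Fin n → ℕ)
      (δ : ∀ ω, Flags n → ∀ u v : Fin n, ℤ → Fin (K ω u v)) (H : Ω → ι → Inst n → ℝ)
      (κ : Ω → ι → ℝ), (∀ ω r, PriceG (δ ω) (H ω r) (κ ω r)) →
      (∀ I : Inst n, I.Valid → Tripartite I → Decides H I) →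
      (n : ℝ) ^ 3 ≤ 2 ^ 32 * ((∑ ω, ((∑ u, ∑ v, (K ω u v : ℝ)) / (n : ℝ) ^ 2 + ∑ r, κ ω r)) /
        Fintype.card Ω)) ∧
    -- fixed and adaptive wires, general form
    (∀ (n : ℕ) (Ω ι : Type) [Fintype Ω] [Nonempty Ω] [Fintype ι] (K : Ω → Fin n → Fin n → ℕ)
      (M : Ω → ℕ), (∀ ω u v, K ω u v ≤ M ω) →
      ∀ (δ : ∀ ω, Flags n → ∀ u v : Fin n, ℤ → Fin (K ω u v)) (H : Ω → ι → Inst n → ℝ)
      (κ : Ω → ι → ℝ), (∀ ω r, PriceA (δ ω) (M ω) (H ω r) (κ ω r)) →
      (∀ I : Inst n, I.Valid → Tripartite I → Decides H I) →
      (n : ℝ) ^ 3 ≤ 2 ^ 70 * ((∑ ω, ((∑ u, ∑ v, (K ω u v : ℝ)) / (n : ℝ) ^ 2 + ∑ r, κ ω r)) /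
        Fintype.card Ω)) :=
  ⟨fun n K t N Ω ι _ _ _ δ H hF hC hdec => clean_fixed n K t N Ω ι δ H hF hC hdec,
    fun n K t N Ω ι _ _ _ δ H hF hC hdec => clean_adaptive n K t N Ω ι δ H hF hC hdec,
    Pool.Agent.Helper94.DG.Three.clean_three, clean_free, clean_trees,
    fun n Ω ι _ _ _ K δ H κ hκ hdec => lower n Ω ι K δ H κ hκ hdec,
    fun n Ω ι _ _ _ K M hM δ H κ hκ hdec => lowerA n Ω ι K M hM δ H κ hκ hdec⟩

end Pool.Agent.Helper94.Kept.HashedWeights
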